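import Pool.Agent.W875.GE.Spec

/-!
# Project GE, part N: nilpotency of the representation
-/

set_option autoImplicit false

namespace Pool.Agent.W715.GE

open W875.GE Finset

universe u

/-- The matrix `∑ M_k X_k`. -/
noncomputable def AA {K S : Type u} [Field K] [Ring S] [Algebra K S] {n r : ℕ}
    (M : Fin n → Matrix (Fin r) (Fin r) K) (X : Fin n → S) : Matrix (Fin r) (Fin r) S :=
  Matrix.of fun i j => ∑ k, M k i j • X k

theorem AA_pow {K S : Type u} [Field K] [Ring S] [Algebra K S] {n r : ℕ}
    (M : Fin n → Matrix (Fin r) (Fin r) K) (X : Fin n → S) (m : ℕ) (i j : Fin r) :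
    (AA M X ^ m) i j = ∑ w : Fin m → Fin n, (wd M (List.ofFn w)) i j • wd X (List.ofFn w) := by
  induction m generalizing i with
  | zero =>
    simp only [pow_zero, Finset.univ_unique, List.ofFn_zero, wd, List.map_nil, List.prod_nil,
      Finset.sum_const, Finset.card_singleton, one_smul]
    by_cases h : i = j
    · subst h; simp
    · simp [Matrix.one_apply_ne h]
  | succ m ih =>
    rw [pow_succ', Matrix.mul_apply]
    simp_rw [ih]
    rw [← (Fin.consEquiv (fun _ : Fin (m + 1) => Fin n)).sum_comp, Fintype.sum_prod_type]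
    have h1 : ∀ (k : Fin n) (w : Fin m → Fin n),
        wd M (List.ofFn ((Fin.consEquiv (fun _ : Fin (m + 1) => Fin n)) (k, w))) =
          M k * wd M (List.ofFn w) := by
      intro k w
      simp [wd, Fin.consEquiv]
    have h2 : ∀ (k : Fin n) (w : Fin m → Fin n),
        wd X (List.ofFn ((Fin.consEquiv (fun _ : Fin (m + 1) => Fin n)) (k, w))) =
          X k * wd X (List.ofFn w) := by
      intro k w
      simp [wd, Fin.consEquiv]
    simp_rw [h1, h2, Matrix.mul_apply, Finset.sum_smul, AA, Matrix.of_apply, Finset.sum_mul,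
      Finset.mul_sum]
    rw [Finset.sum_comm]
    apply Finset.sum_congr rfl
    intro k _
    rw [Finset.sum_comm]
    apply Finset.sum_congr rfl
    intro w _
    apply Finset.sum_congr rfl
    intro l _
    rw [smul_mul_smul_comm]

theorem partN (hS : PartS.{u}) (hDN : PartDN.{u}) (hN1 : PartN1.{u}) : PartN.{u} := by
  intro K _ n θ hθ r M T hT
  obtain ⟨S, _, _, C, _, _, q, ρ, X, Y, hSdom, hCdom, hρ, hDep, hcomm, hind⟩ := hS K n (r + 1)
  let A : Matrix (Fin r) (Fin r) S := AA M X
  let P : ℕ → Matrix (Fin r) (Fin r) S := fun l => if l = 0 then 1 else if l = 1 then -A else 0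
  let G : ℕ → Matrix (Fin r) (Fin r) S := fun k => A ^ k
  have hP0 : P 0 = 1 := rfl
  have hP1 : P 1 = -A := rfl
  have hPl : ∀ l, 1 < l → P l = 0 := by
    intro l hl
    change (if l = 0 then (1 : Matrix (Fin r) (Fin r) S) else if l = 1 then -A else 0) = 0
    rw [if_neg (by omega), if_neg (by omega)]
  have hA0 : G (r + 1) = 0 := by
    refine hDN S hDep C q ρ.toRingHom hρ r 1 P G hP0 hPl (pow_zero A) ?_ ?_ (r + 1) (by omega)
    · intro k
      rw [Finset.sum_range_succ', Finset.sum_range_succ']
      have h0 : ∑ l ∈ range k, P (l + 1 + 1) * G (k + 1 - (l + 1 + 1)) = 0 := by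
        apply Finset.sum_eq_zero
        intro l _
        rw [hPl (l + 1 + 1) (by omega), zero_mul]
      rw [h0, zero_add]
      change P 1 * G (k + 1 - 1) + P 0 * G (k + 1 - 0) = 0
      rw [hP0, hP1, one_mul, Nat.add_sub_cancel, Nat.sub_zero]
      change -A * A ^ k + A ^ (k + 1) = 0
      rw [pow_succ', neg_mul, neg_add_cancel]
    · have h := hN1 K n θ hθ r M T hT C q (fun k => ρ (X k))
      rw [← h]
      congr 1
      ext1 i j
      rw [Matrix.of_apply, Matrix.of_apply, Finset.sum_range_succ, Finset.sum_range_one, hP0, hP1]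
      change (Polynomial.monomial 0) ((ρ ((1 : Matrix (Fin r) (Fin r) S) i.1 j.1)) i.2 j.2) +
        (Polynomial.monomial 1) ((ρ ((-A) i.1 j.1)) i.2 j.2) = _
      rw [sub_eq_add_neg]
      congr 1
      · by_cases hij : i = j
        · subst hij
          rw [if_pos rfl, Matrix.one_apply_eq, map_one, Matrix.one_apply_eq,
            Polynomial.monomial_zero_left, map_one]
        · rw [if_neg hij]
          by_cases h1 : i.1 = j.1
          · have h2 : i.2 ≠ j.2 := fun h2 => hij (Prod.ext h1 h2)
            rw [h1, Matrix.one_apply_eq, map_one, Matrix.one_apply_ne h2, map_zero]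
          · rw [Matrix.one_apply_ne h1, map_zero, Matrix.zero_apply, map_zero]
      · rw [Matrix.neg_apply, map_neg, Matrix.neg_apply, map_neg]
        congr 1
        change (Polynomial.monomial 1) ((ρ (∑ k, M k i.1 j.1 • X k)) i.2 j.2) = _
        rw [map_sum, Matrix.sum_apply, map_sum]
        apply Finset.sum_congr rfl
        intro k _
        rw [map_smul, Matrix.smul_apply, Algebra.smul_def]
  refine ⟨r + 1, ?_⟩
  have key : ∀ m, m = r + 1 → ∀ w : Fin m → Fin n, wd M (List.ofFn w) = 0 := by
    rintro m rfl
    let f : (Fin (r + 1) → Fin n) →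
        {p : List (Fin n) × List (Fin n) // p.1.length + p.2.length = r + 1} :=
      fun w => ⟨(List.ofFn w, []), by simp⟩
    have hf : Function.Injective f := by
      intro w w' h
      have h1 : List.ofFn w = List.ofFn w' := congrArg (fun p => p.1.1) h
      exact List.ofFn_injective h1
    have hli := hind.comp f hf
    rw [Fintype.linearIndependent_iff] at hli
    intro w
    ext i j
    have h2 := AA_pow M X (r + 1) i j
    have h3 : (AA M X ^ (r + 1)) i j = 0 := by
      have h4 : AA M X ^ (r + 1) = 0 := hA0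
      rw [h4, Matrix.zero_apply]
    rw [h3] at h2
    refine hli (fun w => (wd M (List.ofFn w)) i j) ?_ w
    rw [h2]
    apply Finset.sum_congr rfl
    intro w' _
    simp [f, wd]
  intro w hw
  have h := key w.length hw w.get
  rwa [List.ofFn_get] at h

end Pool.Agent.W715.GE
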